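import Pool.Agent.Work.MP_af796d_an.H.St2
import Pool.Agent.Work.MP_af796d_an.H.Final

/-! One inclusion between `Re A` and `Re A ∘ ψ` forces equality; consequences. -/

set_option autoImplicit false

namespace Pool.Agent.Work.MP_af796d_an.One

open Pool.Agent.Work.MP_af796d_an

theorem eq_of_symm (ψ : Circle ≃ₜ Circle) (h : ∀ u ∈ ReA, u ∘ ψ.symm ∈ ReA) :
    ReA = (fun u : Circle → ℝ => u ∘ ψ) '' ReA :=
  (H.final_both (fun _ h => H.st1 h) (fun _ _ h1 h2 h3 h4 => H.st2 h1 h2 h3 h4) ψ).1.2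
    ((H.final_one (fun _ h => H.st1 h) ψ).1 h)

theorem logPot_one (ψ : Circle ≃ₜ Circle) :
    ReA = (fun u : Circle → ℝ => u ∘ ψ) '' ReA ↔ LogPotCond ψ :=
  ⟨fun h => ((logPot_main ψ).1 h).1, fun h => eq_of_symm ψ ((comp_mem_iff ψ.symm).2 h)⟩

theorem dyadic_one (ψ : Circle ≃ₜ Circle)
    (h : ∃ C : NNReal, ∀ y : ℝ, ∃ c : ℕ → ℝ,
      ∑' k : ℕ, (ENNReal.ofReal |c (k + 1) - c k| + dyadicVar ψ y (c k) k) ≤ C) :
    ReA = (fun u : Circle → ℝ => u ∘ ψ) '' ReA :=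
  eq_of_symm ψ (comp_mem_of_dyadic ψ.symm h)

end Pool.Agent.Work.MP_af796d_an.One
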